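import Pool.Agent.Work.MP_bf99ce_ie.Skel3
import Pool.Agent.Work.MP_bf99ce_ie.B_UNQ
import Pool.Agent.Work.MP_bf99ce_ie.B_DEX
import Pool.Agent.Work.MP_bf99ce_ie.B_DYF
import Pool.Agent.Work.MP_bf99ce_ie.B_LMM
import Pool.Agent.Work.MP_bf99ce_ie.B_POL
import Pool.Agent.Work.MP_bf99ce_ie.B_LAT
import Pool.Agent.Work.MP_bf99ce_ie.B_LAS
import Pool.Agent.Work.MP_bf99ce_ie.B_LIN
import Pool.Agent.Work.MP_bf99ce_ie.B_VVA
import Pool.Agent.Work.MP_bf99ce_ie.B_VCM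
import Pool.Agent.Work.MP_bf99ce_ie.B_VDG
import Pool.Agent.Work.MP_bf99ce_ie.B_VDB
import Pool.Agent.Work.MP_bf99ce_ie.B_LGD
import Pool.Agent.Work.MP_bf99ce_ie.B_LBD
import Pool.Agent.Work.MP_bf99ce_ie.B_VOO
import Pool.Agent.Work.MP_bf99ce_ie.B_RIC
import Pool.Agent.Work.MP_bf99ce_ie.B_INC
import Pool.Agent.Work.MP_bf99ce_ie.B_DVP
import Pool.Agent.Work.MP_bf99ce_ie.B_TRL
import Pool.Agent.Work.MP_bf99ce_ie.B_INV
import Pool.Agent.Work.MP_bf99ce_ie.B_INP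
import Pool.Agent.Work.MP_bf99ce_ie.B_UHO
import Pool.Agent.Work.MP_bf99ce_ie.B_UFZ
import Pool.Agent.Work.MP_bf99ce_ie.B_ARI
import Pool.Agent.Work.MP_bf99ce_ie.B_CEN
import Pool.Agent.Work.MP_bf99ce_ie.B_ACO
import Pool.Agent.Work.MP_bf99ce_ie.B_AGD
import Pool.Agent.Work.MP_bf99ce_ie.B_AFP
import Pool.Agent.Work.MP_bf99ce_ie.B_AIN
import Pool.Agent.Work.MP_bf99ce_ie.B_AMN
import Pool.Agent.Work.MP_bf99ce_ie.B_GLK
import Pool.Agent.Work.MP_bf99ce_ie.B_GLD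
import Pool.Agent.Work.MP_bf99ce_ie.B_GLM
import Pool.Agent.Work.MP_bf99ce_ie.B_CNS
import Pool.Agent.Work.MP_bf99ce_ie.B_EMB
import Pool.Agent.Work.MP_bf99ce_ie.B_IND
import Pool.Agent.Work.MP_bf99ce_ie.B_SYI
import Pool.Agent.Work.MP_bf99ce_ie.B_UNQ1
import Pool.Agent.Work.MP_bf99ce_ie.B_DEX1
import Pool.Agent.Work.MP_bf99ce_ie.B_DYF1
import Pool.Agent.Work.MP_bf99ce_ie.B_VVA1
import Pool.Agent.Work.MP_bf99ce_ie.B_VCM1
import Pool.Agent.Work.MP_bf99ce_ie.B_VD0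
import Pool.Agent.Work.MP_bf99ce_ie.B_UHO1
import Pool.Agent.Work.MP_bf99ce_ie.B_UFZ1
import Pool.Agent.Work.MP_bf99ce_ie.B_TRL1
import Pool.Agent.Work.MP_bf99ce_ie.B_INV1
import Pool.Agent.Work.MP_bf99ce_ie.B_VO1
import Pool.Agent.Work.MP_bf99ce_ie.B_VOZ
import Pool.Agent.Work.MP_bf99ce_ie.B_RIC1
import Pool.Agent.Work.MP_bf99ce_ie.B_INC1
import Pool.Agent.Work.MP_bf99ce_ie.B_DVP1
import Pool.Agent.Work.MP_bf99ce_ie.B_ACO1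
import Pool.Agent.Work.MP_bf99ce_ie.B_AGN
import Pool.Agent.Work.MP_bf99ce_ie.B_NFP
import Pool.Agent.Work.MP_bf99ce_ie.B_NIN
import Pool.Agent.Work.MP_bf99ce_ie.B_NAR
import Pool.Agent.Work.MP_bf99ce_ie.B_RFR
import Pool.Agent.Work.MP_bf99ce_ie.B_SYV
import Pool.Agent.Work.MP_bf99ce_ie.B_CHC
import Pool.Agent.Work.MP_bf99ce_ie.B_NRM
import Pool.Agent.Work.MP_bf99ce_ie.B_NSP
import Pool.Agent.Work.MP_bf99ce_ie.B_PWB
import Pool.Agent.Work.MP_bf99ce_ie.B_ZES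
import Pool.Agent.Work.MP_bf99ce_ie.B_NMN
import Pool.Agent.Work.MP_bf99ce_ie.B_KAP
import Pool.Agent.Work.MP_bf99ce_ie.B_GLJ
import Pool.Agent.Work.MP_bf99ce_ie.B_MIN

/-!
# MP_bf99ce_ag: the cotangent bundle of an elliptic fibration over a rational base

Let `k` be a field of characteristic zero and `X` an integral scheme, proper over `k`, whose function field is the function field of an
elliptic curve `y² = x³ + A(t) x + B(t)` over `k(t_1, …, t_m)` with nonconstant discriminant (minimal Weierstrass equation over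
`k[t_1, …, t_m]`). For every finite family `u` of rational functions there is a constant `C` such that for `i > C j` there is no nonzero
section of `S^i Ω_X ⊗ U^j`, `U` the sheaf generated by `u`.
-/

set_option autoImplicit false

open AlgebraicGeometry CategoryTheory

namespace Pool.Agent.Results.MP_bf99ce_ag.EllipticFibrations

open Pool.IE Pool.EM

theorem result (k : Type) [Field k] [CharZero k] (X : Scheme.{0}) [IsIntegral X] (s : X ⟶ Spec (CommRingCat.of k))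
    [IsProper s] (m : ℕ) (t : Fin m → X.functionField) (x y : X.functionField) (A B : MvPolynomial (Fin m) k)
    (hE : EllipticFibration s t x y A B) (N : ℕ) (u : Fin N → X.functionField) :
    ∃ C : ℕ, ∀ i j : ℕ, C * j < i → ¬ HasSection s u i j := by
  have hUNQ : Stmt_UNQ := p_UNQ
  have hDYF : Stmt_DYF := p_DYF
  have hLMM : Stmt_LMM := p_LMM
  have hPOL : Stmt_POL := p_POL
  have hLAT : Stmt_LAT := p_LAT
  have hVVA : Stmt_VVA := p_VVA hUNQ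
  have hVCM : Stmt_VCM := p_VCM hUNQ
  have hVDG : Stmt_VDG := p_VDG hUNQ hDYF hVVA
  have hVDB : Stmt_VDB := p_VDB hUNQ hDYF hVVA
  have hLGD : Stmt_LGD := p_LGD hVVA hVCM hVDG hPOL hLAT
  have hLBD : Stmt_LBD := p_LBD hUNQ hLMM p_LAS p_LIN hVVA hVCM hVDB
  have hVOO : Stmt_VOO := p_VOO hUNQ hDYF hLMM
  have hRIC : Stmt_RIC := p_RIC hUNQ
  have hINC : Stmt_INC := p_INC hUNQ hRIC
  have hDVP : Stmt_DVP := p_DVP hUNQ hRIC
  have hTRL : Stmt_TRL := p_TRL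
  have hINV : Stmt_INV := p_INV hUNQ
  have hINP : Stmt_INP := p_INP
  have hUHO : Stmt_UHO := p_UHO hUNQ hVVA
  have hUFZ : Stmt_UFZ := p_UFZ hUNQ
  have hACO : Stmt_ACO := p_ACO hUNQ hVVA hVOO hTRL hINV hUHO hUFZ
  have hAGD : Stmt_AGD := p_AGD hUNQ hDYF hLMM hPOL hLAT hVOO hINC hDVP
  have hAFP : Stmt_AFP := p_AFP hPOL hVVA hLAT hLGD hLBD hTRL hUFZ
  have hAIN : Stmt_AIN := p_AIN hUNQ hLMM hPOL hVVA hLAT hLGD hLBD hINV hINP hUHO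
  have hAMN : Stmt_AMN := p_AMN hACO hAGD hAFP hAIN p_ARI
  have hGLD : Stmt_GLD := p_GLD
  -- the non-isotrivial case
  have hUNQ1 : Stmt_UNQ1 := p_UNQ1
  have hDYF1 : Stmt_DYF1 := p_DYF1
  have hVVA1 : Stmt_VVA1 := p_VVA1 hUNQ1
  have hVCM1 : Stmt_VCM1 := p_VCM1 hUNQ1
  have hVD0 : Stmt_VD0 := p_VD0 hUNQ1 hDYF1 hVVA1
  have hUHO1 : Stmt_UHO1 := p_UHO1 hUNQ1 hVVA1
  have hUFZ1 : Stmt_UFZ1 := p_UFZ1 hUNQ1
  have hTRL1 : Stmt_TRL1 := p_TRL1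
  have hINV1 : Stmt_INV1 := p_INV1 hUNQ1
  have hVO1 : Stmt_VO1 := p_VO1 hUNQ1 hDYF1 hLMM
  have hVOZ : Stmt_VOZ := p_VOZ hUNQ1 hLMM hVO1
  have hRIC1 : Stmt_RIC1 := p_RIC1 hUNQ1
  have hINC1 : Stmt_INC1 := p_INC1 hUNQ1 hRIC1
  have hDVP1 : Stmt_DVP1 := p_DVP1 hUNQ1 hRIC1
  have hACO1 : Stmt_ACO1 := p_ACO1 hUNQ1 hVVA1 hVO1 hTRL1 hINV1 hUHO1 hUFZ1
  have hAGN : Stmt_AGN := p_AGN hUNQ1 hDYF1 hPOL hLAT hVO1 hVOZ hINC1 hDVP1
  have hNFP : Stmt_NFP := p_NFP hPOL hVVA1 hVCM1 hVD0 hLAT hTRL1 hUFZ1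
  have hNIN : Stmt_NIN := p_NIN hUNQ1 hPOL hVVA1 hVCM1 hVD0 hLAT hINV1 hINP hUHO1
  have hRFR : Stmt_RFR := p_RFR hUNQ1 hDYF1 hPOL hLAT hINC1 hDVP1
  have hNSP : Stmt_NSP := p_NSP hUNQ1 hVO1 hVOZ
  have hPWB : Stmt_PWB := p_PWB hUNQ1 hVO1 hVOZ hRIC1 hINC1 (p_NRM hUNQ1) hNSP
  have hZES : Stmt_ZES := p_ZES hUNQ1 hVO1 hVOZ hRIC1 p_SYV p_CHC hPWB
  have hNMN : Stmt_NMN := p_NMN hUNQ1 hLMM hVO1 hVOZ hACO1 hAGN hNFP hNIN p_NAR hRFR hZES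
  exact SE_main hUNQ p_DEX hUNQ1 p_DEX1 p_CEN hAMN hNMN p_GLK hGLD (p_GLM hGLD) (p_GLJ hGLD) p_KAP p_MIN p_CNS (p_EMB hGLD) p_IND
    p_SYI k X s m t x y A B hE N u

end Pool.Agent.Results.MP_bf99ce_ag.EllipticFibrations
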