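import Pool.Agent.Work.MP_bf99ce_sf.Skel2
import Pool.Agent.Work.MP_bf99ce_sf.Stat
import Pool.Agent.Work.MP_bf99ce_sf.Bridge
import Pool.Agent.Work.MP_bf99ce_sf.B_ACT
import Pool.Agent.Work.MP_bf99ce_sf.B_UAR
import Pool.Agent.Work.MP_bf99ce_sf.B_ALP
import Pool.Agent.Work.MP_bf99ce_sf.B_TRD
import Pool.Agent.Work.MP_bf99ce_sf.B_RA1
import Pool.Agent.Work.MP_bf99ce_sf.B_RA2
import Pool.Agent.Work.MP_bf99ce_sf.B_RAT
import Pool.Agent.Work.MP_bf99ce_sf.B_CRD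
import Pool.Agent.Work.MP_bf99ce_sf.B_BIN
import Pool.Agent.Work.MP_bf99ce_sf.B_TOP
import Pool.Agent.Work.MP_bf99ce_sf.B_TWO
import Pool.Agent.Work.MP_bf99ce_sf.B_GRL
import Pool.Agent.Work.MP_bf99ce_sf.B_GN6
import Pool.Agent.Work.MP_bf99ce_sf.B_GN7
import Pool.Agent.Work.MP_bf99ce_sf.B_GN8
import Pool.Agent.Work.MP_bf99ce_sf.B_DUA
import Pool.Agent.Work.MP_bf99ce_sf.B_SEM
import Pool.Agent.Work.MP_bf99ce_sf.B_CHI
import Pool.Agent.Work.MP_bf99ce_sf.B_UNI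
import Pool.Agent.Work.MP_bf99ce_sf.B_WDG
import Pool.Agent.Work.MP_bf99ce_sf.B_TPD
import Pool.Agent.Work.MP_bf99ce_sf.B_LSP
import Pool.Agent.Work.MP_bf99ce_sf.B_POL
import Pool.Agent.Work.MP_bf99ce_sf.B_EVC
import Pool.Agent.Work.MP_bf99ce_sf.B_CRM
import Pool.Agent.Work.MP_bf99ce_sf.B_VAL
import Pool.Agent.Work.MP_bf99ce_sf.B_INT
import Pool.Agent.Work.MP_bf99ce_sf.B_ALG
import Pool.Agent.Work.MP_bf99ce_sf.B_NZR
import Pool.Agent.Work.MP_bf99ce_sf.B_SCH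
import Pool.Agent.Work.MP_bf99ce_sf.B_LOA
import Pool.Agent.Work.MP_bf99ce_sf.B_NOA
import Pool.Agent.Work.MP_bf99ce_sf.B_LOC
import Pool.Agent.Work.MP_bf99ce_sf.B_NOR
import Pool.Agent.Work.MP_bf99ce_sf.B_BCM
import Pool.Agent.Work.MP_bf99ce_sf.B_INJ
import Pool.Agent.Work.MP_bf99ce_sf.B_DOM

/-!
# MP_bf99ce_ag: symmetric powers of exterior cotangent bundles in the middle degrees

Let `X` and `Y` be integral schemes, smooth over a field `k` of characteristic zero, `g : X ⟶ Y` a dominant morphism over `k`,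
`d = dim Y`. If the Kodaira dimension of `Y` is nonnegative (some `r K_Y`, `r ≥ 1`, has a nonzero section), then for `q = d`, for all
`3 ≤ q ≤ d - 3`, and for `q = 2`, `q = d - 2` if `d` is even, some symmetric power `S^m Ω^q_X`, `m ≥ 1`, has a nonzero section.
-/

set_option autoImplicit false

open AlgebraicGeometry CategoryTheory

namespace Pool.Agent.Results.MP_bf99ce_ag.MiddleDegrees

open Pool.SFR

/-- The theorem in the working form of the definitions. -/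
theorem main (k : Type) [Field k] [CharZero k] (X Y : Scheme.{0}) (fX : X ⟶ Spec (CommRingCat.of k))
    (fY : Y ⟶ Spec (CommRingCat.of k)) [IsIntegral X] [IsIntegral Y] (n d : ℕ) [SmoothOfRelativeDimension n fX]
    [SmoothOfRelativeDimension d fY] (g : X ⟶ Y) [IsDominant g] (hg : g ≫ fY = fX) (q r : ℕ) (hq : Pool.SF.Good d q)
    (hr : 1 ≤ r) (hY : Pool.SF.HasSection fY d r) : ∃ m, 1 ≤ m ∧ Pool.SF.HasSection fX q m := by
  have hACT : Pool.SF.Stmt_ACT := Pool.SF.p_ACT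
  have hUAR : Pool.SF.Stmt_UAR := Pool.SF.p_UAR
  have hALP : Pool.SF.Stmt_ALP := Pool.SF.p_ALP hACT hUAR
  have hRAT : Pool.SF.Stmt_RAT :=
    Pool.SF.p_RAT hALP (Pool.SF.p_RA1 hACT hUAR hALP Pool.SF.p_TRD) (Pool.SF.p_RA2 hALP)
  have hSEM : Pool.SF.Stmt_SEM := Pool.SF.p_SEM Pool.SF.p_CRD Pool.SF.p_BIN hRAT (Pool.SF.p_TOP hUAR)
    (Pool.SF.p_TWO hACT hUAR) (Pool.SF.p_GRL hACT hUAR) Pool.SF.p_GN6 Pool.SF.p_GN7 Pool.SF.p_GN8
    (Pool.SF.p_DUA hACT hUAR)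
  have hCHI : Pool.SF.Stmt_CHI := Pool.SF.p_CHI hACT hUAR
  have hUNI : Pool.SF.Stmt_UNI := Pool.SF.p_UNI hACT hUAR
  have hWDG : Pool.SF.Stmt_WDG := Pool.SF.p_WDG
  have hLSP : Pool.SF.Stmt_LSP := Pool.SF.p_LSP
  have hVAL : Pool.SF.Stmt_VAL :=
    Pool.SF.p_VAL hACT hWDG hLSP (Pool.SF.p_POL hLSP) Pool.SF.p_EVC Pool.SF.p_CRM
  have hALG : Pool.SF.Stmt_ALG := Pool.SF.p_ALG hLSP hVAL Pool.SF.p_INT
  have hSCH : Pool.SF.Stmt_SCH := Pool.SF.p_SCH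
  exact Pool.SF.SK_dom hSEM hCHI hUNI hWDG (Pool.SF.p_TPD hWDG) hLSP hALG (Pool.SF.p_NZR hUAR)
    (Pool.SF.p_LOC hSCH Pool.SF.p_LOA) (Pool.SF.p_NOR hSCH Pool.SF.p_NOA) Pool.SF.p_BCM Pool.SF.p_INJ
    Pool.SF.p_DOM k X Y fX fY n d g hg q r hq hr hY

theorem result (k : Type) [Field k] [CharZero k] (X Y : Scheme.{0}) (fX : X ⟶ Spec (CommRingCat.of k))
    (fY : Y ⟶ Spec (CommRingCat.of k)) [IsIntegral X] [IsIntegral Y] (n d : ℕ) [SmoothOfRelativeDimension n fX]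
    [SmoothOfRelativeDimension d fY] (g : X ⟶ Y) [IsDominant g] (hg : g ≫ fY = fX) (q r : ℕ) (hq : Good d q)
    (hr : 1 ≤ r) (hY : HasSection fY d r) : ∃ m, 1 ≤ m ∧ HasSection fX q m := by
  obtain ⟨m, hm, h⟩ := main k X Y fX fY n d g hg q r hq hr ((hasSection_iff fY d r).1 hY)
  exact ⟨m, hm, (hasSection_iff fX q m).2 h⟩

end Pool.Agent.Results.MP_bf99ce_ag.MiddleDegrees
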