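import Pool.Agent.Work.MP_bf99ce_cxs.Bridge
import Pool.Agent.Work.MP_bf99ce_cx.Final

/-!
# Nonvanishing fails for symmetric powers of exterior cotangent bundles

There is a projective manifold `X` of dimension `4` such that `Ω³_X` is pseudoeffective although `H⁰(X, S^m Ω³_X) = 0` for every
`m ≥ 1`. The manifold of the proof is `X = S × S`, where `S ⊂ ℙ⁴` is the surface `x_3³ = a`, `x_4³ = b`,
`a = -3 x_0³ + 3 x_1³ + x_2³ + ε x_0 x_1 x_2`, `b = -3 x_0³ + x_1³ + 3 x_2³`, `ε` transcendental over `ℚ`.

The definitions `chart`, `ProjManifold`, `Om`, `Ext`, `Sym`, `mono`, `Reg`, `HasSection`, `Pseudoeffective` are in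
`Pool/Agent/Work/MP_bf99ce_cxs/Stat.lean`.
-/

namespace Pool.Agent.Results.MP_bf99ce_ag.NonvanishingFails

open Pool.CXS

/-- A projective manifold of dimension `4` (function field `K`, homogeneous coordinates `t` of the generic point) whose bundle of
`3`-forms is pseudoeffective and has no symmetric power with a nonzero section. -/
theorem result : ∃ (K : Type) (_ : Field K) (_ : Algebra ℂ K) (N : ℕ) (t : Fin (N + 1) → K),
    ProjManifold t ∧ Algebra.trdeg ℂ K = 4 ∧ Pseudoeffective t 0 3 ∧ ∀ m : ℕ, 1 ≤ m → ¬ HasSection t 0 3 m 0 :=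
  statement_of CX.final

end Pool.Agent.Results.MP_bf99ce_ag.NonvanishingFails
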